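import Mathlib
import Pool.Agent.X238.DW.Stm

/-! Project DW (MP_8bcfe8_an): the part (YID), the derivative identity for the kernels. -/

set_option autoImplicit false

namespace Pool.Agent.X17.DWY

open MeasureTheory Set Filter Topology Pool.Agent.X238.DW

theorem lin (a b s : ℝ) (f : ℝ → ℝ) (hf : ∀ x, f x = a * x + b) : HasDerivAt f a s := by
  have h : f = fun x => a * x + b := funext hf
  rw [h]
  simpa using ((hasDerivAt_id s).const_mul a).add_const b

theorem t_YID : S_YID := by
  intro c l P G hK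
  have cP : Continuous P := continuous_iff_continuousAt.2 fun s => (hK.dP s).continuousAt
  have cG : Continuous G := continuous_iff_continuousAt.2 fun s => (hK.dG s).continuousAt
  obtain ⟨J, hJ⟩ : ∃ J : ℝ → ℝ, J = fun s => ∫ r in (0:ℝ)..s, r * Real.exp (c * r / 2) * P r :=
    ⟨_, rfl⟩
  have cJ : Continuous fun r : ℝ => r * Real.exp (c * r / 2) * P r := by fun_prop
  have dJ : ∀ s, HasDerivAt J (s * Real.exp (c * s / 2) * P s) s := fun s => by
    rw [hJ]; exact (cJ.integral_hasStrictDerivAt 0 s).hasDerivAt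
  have J0 : J 0 = 0 := by simp [hJ]
  have dE : ∀ s, HasDerivAt (fun s : ℝ => Real.exp (c * s / 2))
      (c / 2 * Real.exp (c * s / 2)) s := by
    intro s
    have h : HasDerivAt (fun s : ℝ => c * s / 2) (c / 2) s := lin _ 0 _ _ fun x => by ring
    exact h.exp.congr_deriv (by ring)
  have dE' : ∀ s, HasDerivAt (fun s : ℝ => Real.exp (-(c * s / 2)))
      (-(c / 2) * Real.exp (-(c * s / 2))) s := by
    intro s
    have h : HasDerivAt (fun s : ℝ => -(c * s / 2)) (-(c / 2)) s := lin _ 0 _ _ fun x => by ring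
    exact h.exp.congr_deriv (by ring)
  have hEE : ∀ s : ℝ, Real.exp (-(c * s / 2)) * Real.exp (c * s / 2) = 1 := fun s => by
    rw [← Real.exp_add, neg_add_cancel, Real.exp_zero]
  -- first integral
  have I1 : ∀ s, ∫ r in (0:ℝ)..s, ((c * r / 2 - 1) * Real.exp (c * r / 2)) • G r =
      (c * s / 2 - 1) * Real.exp (c * s / 2) * P s - c ^ 2 / 4 * J s := by
    intro s
    have hd : ∀ x, HasDerivAt (fun s => (c * s / 2 - 1) * Real.exp (c * s / 2) * P s -
        c ^ 2 / 4 * J s) (((c * x / 2 - 1) * Real.exp (c * x / 2)) • G x) x := by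
      intro x
      have h : HasDerivAt (fun s : ℝ => c * s / 2 - 1) (c / 2) x := lin _ (-1) _ _ fun x => by ring
      refine (((h.mul (dE x)).mul (hK.dP x)).sub ((dJ x).const_mul (c ^ 2 / 4))).congr_deriv ?_
      try simp only [smul_eq_mul, Pi.mul_apply]
      ring
    have hi : IntervalIntegrable (fun x : ℝ => ((c * x / 2 - 1) * Real.exp (c * x / 2)) • G x)
        volume 0 s := by
      apply Continuous.intervalIntegrable
      fun_prop
    have := intervalIntegral.integral_eq_sub_of_hasDerivAt
      (fun x (_ : x ∈ uIcc 0 s) => hd x) hi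
    rw [this]
    simp [hK.P0, J0]
  -- second integral
  have I2 : ∀ s, (l - c ^ 2 / 4) * J s =
      Real.exp (c * s / 2) * (P s - s * G s - c / 2 * s * P s) := by
    intro s
    have hd : ∀ x, HasDerivAt (fun s => Real.exp (c * s / 2) * (P s - s * G s - c / 2 * s * P s))
        ((l - c ^ 2 / 4) * (x * Real.exp (c * x / 2) * P x)) x := by
      intro x
      have h : HasDerivAt (fun s : ℝ => c / 2 * s) (c / 2) x := lin _ 0 _ _ fun x => by ring
      refine ((dE x).mul (((hK.dP x).sub ((hasDerivAt_id x).mul (hK.dG x))).sub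
        (h.mul (hK.dP x)))).congr_deriv ?_
      try simp only [id_eq, Pi.mul_apply, Pi.sub_apply]
      ring
    have hi : IntervalIntegrable (fun x : ℝ => (l - c ^ 2 / 4) * (x * Real.exp (c * x / 2) * P x))
        volume 0 s := by
      apply Continuous.intervalIntegrable
      fun_prop
    have := intervalIntegral.integral_eq_sub_of_hasDerivAt
      (fun x (_ : x ∈ uIcc 0 s) => hd x) hi
    rw [intervalIntegral.integral_const_mul] at this
    rw [hJ]
    simp only
    rw [this]
    simp [hK.P0]
  have Yeq : ∀ s, YY c G s = -(s / 2) * G s + (1 / 2) * (c * s / 2 - 1) * P s -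
      c ^ 2 / 8 * (Real.exp (-(c * s / 2)) * J s) := by
    intro s
    unfold YY
    rw [I1 s]
    simp only [smul_eq_mul]
    have := hEE s
    linear_combination ((1 / 2) * (c * s / 2 - 1) * P s) * this
  have Yfun : YY c G = fun s => -(s / 2) * G s + (1 / 2) * (c * s / 2 - 1) * P s -
      c ^ 2 / 8 * (Real.exp (-(c * s / 2)) * J s) := funext Yeq
  refine ⟨fun s => -(s / 2) * P s + c / 4 * (Real.exp (-(c * s / 2)) * J s), ?_, ?_, ?_⟩
  · simp [hK.P0, J0]
  · intro s
    have h : HasDerivAt (fun s : ℝ => -(s / 2)) (-(1 / 2)) s := lin _ 0 _ _ fun x => by ring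
    rw [Yeq s]
    refine ((h.mul (hK.dP s)).add (((dE' s).mul (dJ s)).const_mul (c / 4))).congr_deriv ?_
    have h1 := hEE s
    linear_combination ((c / 4) * s * P s) * h1
  · intro s
    have h : HasDerivAt (fun s : ℝ => -(s / 2)) (-(1 / 2)) s := lin _ 0 _ _ fun x => by ring
    have h2 : HasDerivAt (fun s : ℝ => (1 / 2) * (c * s / 2 - 1)) (c / 4) s :=
      lin _ (-(1 / 2)) _ _ fun x => by ring
    rw [Yeq s, Yfun]
    refine (((h.mul (hK.dG s)).add (h2.mul (hK.dP s))).sub
      (((dE' s).mul (dJ s)).const_mul (c ^ 2 / 8))).congr_deriv ?_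
    have h1 := hEE s
    have h3 := I2 s
    linear_combination (-(c ^ 2 / 8) * s * P s) * h1 + (c / 4 * Real.exp (-(c * s / 2))) * h3
      + (c / 4 * (P s - s * G s - c / 2 * s * P s)) * h1

end Pool.Agent.X17.DWY
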